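import Pool.Agent.L5helper38.TadFinal

/-!
# The SSP tadpoles (Q2)

For all `m ≥ 6` and `n ≥ 1` the tadpole `T_{m,n}` belongs to `G^SSP` if and only if
`m ≤ 2 n + 3`.

The direction `m ≤ 2 n + 3` is `LongTails`. For `m ≥ 2 n + 4` a matrix of the tadpole without the
strong spectral property is constructed: it is invariant under the reflection of the cycle, and its
symmetric part is a Jacobi matrix obtained from prescribed interlacing continuants.
-/

set_option autoImplicit false

namespace Pool.Agent.Results.MP_34deb4_co.TadpoleIff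

/-- the symmetric matrices of a graph: for `i ≠ j` the entry is nonzero exactly on the edges, the
diagonal is free -/
def InS {V : Type} (G : SimpleGraph V) (A : Matrix V V ℝ) : Prop :=
  A.IsSymm ∧ ∀ i j, i ≠ j → (A i j ≠ 0 ↔ G.Adj i j)

/-- the strong spectral property -/
def HasSSP {V : Type} [Fintype V] (A : Matrix V V ℝ) : Prop :=
  ∀ X : Matrix V V ℝ, X.IsSymm → (∀ i j, A i j * X i j = 0) → (∀ i, X i i = 0) →
    A * X = X * A → X = 0

/-- SSP graphs: every matrix of the graph has the strong spectral property -/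
def IsSSPGraph {V : Type} [Fintype V] (G : SimpleGraph V) : Prop :=
  ∀ A : Matrix V V ℝ, InS G A → HasSSP A

/-- the tadpole `T_{m,n}`: the cycle on `Fin m`, the path on `Fin n` and the bridge joining the
vertex `0` of the cycle to the end vertex `0` of the path -/
def tadpole (m n : ℕ) : SimpleGraph (Fin m ⊕ Fin n) :=
  SimpleGraph.fromRel fun x y =>
    match x, y with
    | .inl i, .inl j => (i.val + 1) % m = j.val
    | .inr i, .inr j => i.val + 1 = j.val
    | .inl i, .inr j => i.val = 0 ∧ j.val = 0
    | .inr _, .inl _ => False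

theorem tadpole_eq (m n : ℕ) : tadpole m n = LongTails.tadpole m n := rfl

theorem ssp_iff {V : Type} [Fintype V] (G : SimpleGraph V) :
    IsSSPGraph G ↔ LongTails.IsSSPGraph G := Iff.rfl

/-- **The tadpole `T_{m,n}` with `m ≥ 6`, `n ≥ 1` is an SSP graph if and only if
`m ≤ 2 n + 3`.** -/
theorem result : ∀ m n : ℕ, 6 ≤ m → 1 ≤ n → (IsSSPGraph (tadpole m n) ↔ m ≤ 2 * n + 3) := by
  intro m n hm hn
  rw [ssp_iff, tadpole_eq]
  exact Pool.Agent.L5helper38.TadFinal.main m n hm hn

end Pool.Agent.Results.MP_34deb4_co.TadpoleIff
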